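import Mathlib
import Pool.Agent.Q192.EM.Defs
import Pool.Agent.Q192.EM.Main

/-!
# Maximising measures of Euclidean balls

`Pool.Agent.Q192.EM.Defs` defines the energy `energy μ = ∬ exp (-d(x,y)) dμ(x) dμ(y)` and
`IsMaximising μ`: `μ` is a probability measure of least energy (the characterisation of maximising
measures recalled in the problem file).

The conjecture that the support of the maximising measure of a Euclidean ball `B_R` is a finite
union of spheres centred at the centre (a point counts as a sphere of radius `0`) is false: in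
dimension three it fails for every `R` with `exp R - (1 + 2R) exp (-R) - 2 R² > 0`, in particular
for every `R ≥ 3`. If the support is a union of centred spheres at all, then their radii accumulate
at `0`.
-/

set_option autoImplicit false

open MeasureTheory Metric Set

namespace Pool.Agent.Results.MP_91ee6f_gt.NotFinitelyManySpheres

open Pool.Agent.Q192.EM

/-- three-dimensional Euclidean space -/
abbrev E3 := EuclideanSpace ℝ (Fin 3)

/-- the closed ball of radius `R` about the origin, a compact metric space -/
abbrev B (R : ℝ) := closedBall (0 : E3) R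

theorem result :
    -- every `R` with `exp R - (1 + 2R) exp (-R) - 2 R² > 0`
    (∀ R : ℝ, 0 < R → 0 < Real.exp R - (1 + 2 * R) * Real.exp (-R) - 2 * R ^ 2 →
      -- maximising measures exist
      (∃ μ : Measure (B R), IsMaximising μ) ∧
      ∀ μ : Measure (B R), IsMaximising μ →
        -- the support is no finite union of centred spheres
        (∀ F : Set ℝ, F.Finite → μ.support ≠ {x : B R | ‖(x : E3)‖ ∈ F}) ∧
        -- if it is the union of the centred spheres with radii in `S`, then `S` contains
        -- arbitrarily small positive numbers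
        (∀ S : Set ℝ, μ.support = {x : B R | ‖(x : E3)‖ ∈ S} →
          ∀ ε > 0, ∃ s ∈ S, 0 < s ∧ s < ε)) ∧
    -- the condition holds from `R = 3` on
    (∀ R : ℝ, 3 ≤ R → 0 < Real.exp R - (1 + 2 * R) * Real.exp (-R) - 2 * R ^ 2) := by
  refine ⟨fun R hR hh => ?_, fun R hR => h_pos hR⟩
  have hcs : CompactSpace (B R) := isCompact_iff_compactSpace.1 (isCompact_closedBall _ _)
  have hne : Nonempty (B R) := ⟨⟨0, mem_closedBall_self hR.le⟩⟩
  refine ⟨exists_maximising, fun μ hμ => ?_⟩
  have hmain : ∀ S : Set ℝ, μ.support = {x : B R | ‖(x : E3)‖ ∈ S} →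
      ∀ ε > 0, ∃ s ∈ S, 0 < s ∧ s < ε := fun S hS ε hε => radii hR hh hμ S hS hε
  refine ⟨fun F hF hs => ?_, hmain⟩
  -- a finite set of radii has a least positive element
  have hF' : (F ∩ Ioi 0).Finite := hF.subset inter_subset_left
  obtain ⟨s, hsF, hs0, -⟩ := hmain F hs 1 one_pos
  obtain ⟨t, ht, htmin⟩ := hF'.exists_minimalFor id _ ⟨s, hsF, hs0⟩
  obtain ⟨u, huF, hu0, hut⟩ := hmain F hs t ht.2
  have := htmin ⟨huF, hu0⟩ hut.le
  exact absurd (lt_of_le_of_lt this hut) (lt_irrefl _)

end Pool.Agent.Results.MP_91ee6f_gt.NotFinitelyManySpheres
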